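import Pool.Agent.ABC3.Stmts
import Pool.Agent.Helper99_ABC3.ADD
import Pool.Agent.Helper99_ABC3.FOU
import Pool.Agent.Helper85_ABC3.Ann
import Pool.Agent.Helper25_ABC3.ATT
import Pool.Agent.Helper25_ABC3.TR1
import Pool.Agent.Helper92_ABC3.BON
import Pool.Agent.Helper53_ABC3.Bze
import Pool.Agent.Helper48_ABC3.CHI
import Pool.Agent.Helper43_ABC3.EPT
import Pool.Agent.Helper43_ABC3.TRC
import Pool.Agent.Helper51_ABC3.GEN
import Pool.Agent.Helper51_ABC3.PER
import Pool.Agent.Helper33_ABC3.IND
import Pool.Agent.Helper33_ABC3.SQR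
import Pool.Agent.Helper56_ABC3.KRS
import Pool.Agent.Helper28_ABC3.QUO
import Pool.Agent.Helper65_ABC3.RPJ
import Pool.Agent.Helper65_ABC3.STB
import Pool.Agent.Helper90_ABC3.Sta
import Pool.Agent.Helper54_ABC3.Str
import Pool.Agent.Helper95_ABC3.CPX

set_option autoImplicit false

/-!
# Four bases in characteristic 3 contain an AT-basis

The main theorem of the squad ABC3 (see `Pool/Agent/ABC3/Stmts.lean` for the proof in words).
-/

namespace Pool.Agent.Results.MP_4e0dfc_co.FourBases

open Matrix Pool.Agent.ABC3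

theorem cpx : CPXStmt := H95.cpx
theorem ann : ANNStmt := Pool.Agent.ABC3.ann H43.trc H33.sqr
theorem chi : CHIStmt := H48.chi H43.trc
theorem rpj : RPJStmt := H65.rpj H43.trc
theorem sta : STAStmt := H90.sta H53.bze H56.krs ann chi H43.ept H25.tr1 cpx
theorem stb : STBStmt := H65.stb H92.bon H56.krs cpx chi H43.ept H25.tr1
theorem str : STRStmt := H54.str H43.ept chi H25.tr1 cpx rpj H28.quo H43.trc H56.krs
theorem ind : INDStmt := H33.ind str sta stb
theorem att : ATTStmt := H25.att ind H43.ept chi H25.tr1 cpx rpj H56.krs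

/-- A family of columns over a field of characteristic 3 such that every proper subspace `U` misses
at least `4 codim U - 2` of them contains an AT-basis. -/
theorem gen : GENStmt := H51.gen att H33.sqr H51.per

/-- Four invertible matrices over a field of characteristic 3. -/
theorem fou : FOUStmt := H99.fou gen

/-- An AT-basis over `Z_3` is an additive basis. -/
theorem add : ADDStmt := H99.add

/-- (1) Over any field of characteristic 3, a finite family of columns such that every proper subspace
`U` misses at least `4 codim U - 2` of them contains `2 n` columns forming an AT-basis.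
(2) Among the `4 n` columns of four invertible matrices over `Z_3` there are `2 n` distinct ones
which form an AT-basis and an additive basis: every vector of `Z_3^n` is the sum of a subset of them. -/
theorem result :
    (∀ (K : Type) [Field K] [CharP K 3] (n : ℕ) (ι : Type) [Fintype ι] (Y : Matrix (Fin n) ι K),
      (∀ U : Submodule K (Fin n → K), U ≠ ⊤ →
        4 * n ≤ Nat.card {c : ι // (fun r => Y r c) ∉ U} + 4 * Module.finrank K U + 2) →
      ∃ f : Fin 2 × Fin n → ι, Function.Injective f ∧
        Matrix.permanent (Matrix.of (fun (r c : Fin 2 × Fin n) => Y r.2 (f c))) ≠ 0) ∧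
    (∀ (n : ℕ) (B : Fin 4 → Matrix (Fin n) (Fin n) (ZMod 3)), (∀ j, IsUnit (B j)) →
      ∃ f : Fin 2 × Fin n → Fin 4 × Fin n, Function.Injective f ∧
        Matrix.permanent (Matrix.of (fun (r c : Fin 2 × Fin n) => B (f c).1 r.2 (f c).2)) ≠ 0 ∧
        ∀ y : Fin n → ZMod 3, ∃ S : Finset (Fin 2 × Fin n),
          ∀ r : Fin n, ∑ c ∈ S, B (f c).1 r (f c).2 = y r) := by
  refine ⟨?_, ?_⟩
  · intro K _ _ n ι _ Y hY
    classical
    exact gen K n ι Y hY
  · intro n B hB
    have : Fact (Nat.Prime 3) := ⟨Nat.prime_three⟩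
    obtain ⟨f, hf, hp⟩ := fou (ZMod 3) n B (fun j => ((Matrix.isUnit_iff_isUnit_det _).1 (hB j)).ne_zero)
    refine ⟨f, hf, hp, fun y => ?_⟩
    obtain ⟨s, hs⟩ := add n (Matrix.of (fun (r : Fin n) (c : Fin 2 × Fin n) => B (f c).1 r (f c).2)) hp
      (fun _ i => if i = 0 then 0 else 1) (fun c => by simp) y
    refine ⟨Finset.univ.filter (fun c => s c = 1), fun r => ?_⟩
    rw [← hs r, Finset.sum_filter]
    refine Finset.sum_congr rfl (fun c _ => ?_)
    by_cases h : s c = 1
    · rw [if_pos h]
      simp [h]
    · have h0 : s c = 0 := by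
        rcases Fin.exists_fin_two.1 ⟨s c, rfl⟩ with h' | h'
        · exact h'
        · exact absurd h' h
      rw [if_neg h]
      simp [h0]

end Pool.Agent.Results.MP_4e0dfc_co.FourBases
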