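import Pool.Agent.Helper91_AT3.Cls
import Pool.Agent.Helper63_AT3.Fin
import Pool.Agent.Helper63_AT3.Trees

set_option autoImplicit false

namespace Pool.Agent.Results.MP_4e0dfc_co.GraphicBases

open Pool.Agent.H91AT

/-- Every column of `A` has exactly one nonzero entry. -/
def UnitColumns {p n : ℕ} (A : Matrix (Fin n) (Fin n) (ZMod p)) : Prop :=
  ∀ c, ∃ i, A i c ≠ 0 ∧ ∀ k, k ≠ i → A k c = 0

/-- Every column of `A` has at most two nonzero entries. -/
def TwoEntries {p n : ℕ} (A : Matrix (Fin n) (Fin n) (ZMod p)) : Prop :=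
  ∀ c, ((Finset.univ : Finset (Fin n)).filter (fun k => A k c ≠ 0)).card ≤ 2

/-- `A` is a weighted spanning tree: there is an invertible matrix `G` whose columns have the form
`e_i` or `e_i - e_j` (`i ≠ j`), that is, `G` is the reduced incidence matrix of a spanning tree of
the complete graph on `n + 1` vertices, and `A` has the same zero entries as `G`. -/
def WeightedTree {p n : ℕ} (A : Matrix (Fin n) (Fin n) (ZMod p)) : Prop :=
  ∃ G : Matrix (Fin n) (Fin n) (ZMod p), G.det ≠ 0 ∧
    (∀ c, (∃ i, ∀ k, G k c = if k = i then 1 else 0) ∨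
      (∃ i j, i ≠ j ∧ ∀ k, G k c = if k = i then 1 else if k = j then -1 else 0)) ∧
    ∀ k c, A k c = 0 ↔ G k c = 0

/-- The Alon-Tarsi basis conjecture (Q1) for every prime `p ≥ 3` if, after one common change of
basis `P`, either three of the `p` bases are weighted spanning trees (`p = 3`: all of them), or two
of them have at most two nonzero entries in every column, and the others consist of multiples of
unit vectors. -/
theorem result (p : ℕ) (hp : p.Prime) (h3 : 3 ≤ p) (n : ℕ)
    (B : Fin p → Matrix (Fin n) (Fin n) (ZMod p)) (hB : ∀ j, (B j).det ≠ 0)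
    (P : Matrix (Fin n) (Fin n) (ZMod p)) (hP : P.det ≠ 0) (s : Finset (Fin p))
    (hu : ∀ j, j ∉ s → UnitColumns (P * B j))
    (hs : (s.card = 3 ∧ ∀ j ∈ s, WeightedTree (P * B j)) ∨
      (s.card = 2 ∧ ∀ j ∈ s, TwoEntries (P * B j)))
    (g : Fin p × Fin n) :
    ∃ f : Fin (p - 1) × Fin n → Fin p × Fin n, Function.Injective f ∧
      Matrix.permanent
        (Matrix.of (fun (r c : Fin (p - 1) × Fin n) => B (f c).1 r.2 (f c).2)) ≠ 0 ∧
      g ∉ Set.range f ∧
      LinearIndependent (ZMod p) (fun c : {c : Fin p × Fin n // c ∉ Set.range f} =>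
        (fun k => B c.1.1 k c.1.2 : Fin n → ZMod p)) := by
  classical
  have : Fact p.Prime := ⟨hp⟩
  -- the vectors and the index sets
  set a : Fin p × Fin n → (Fin n → ZMod p) := fun c k => (P * B c.1) k c.2 with ha
  set J : Fin p → Finset (Fin p × Fin n) := fun j => Finset.univ.filter (fun c => c.1 = j) with hJ
  have hmemJ : ∀ j c, c ∈ J j ↔ c.1 = j := by
    intro j c
    rw [hJ]
    simp
  have hJcard : ∀ j, (J j).card = (Finset.univ : Finset (Fin n)).card := by
    intro j
    have : J j = ({j} : Finset (Fin p)) ×ˢ (Finset.univ : Finset (Fin n)) := by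
      ext c
      rw [hmemJ, Finset.mem_product, Finset.mem_singleton]
      exact ⟨fun h => ⟨h, Finset.mem_univ _⟩, fun h => h.1⟩
    rw [this, Finset.card_product, Finset.card_singleton, one_mul]
  have hJdisj : ∀ i j, i ≠ j → Disjoint (J i) (J j) := by
    intro i j hij
    rw [Finset.disjoint_left]
    intro c h1 h2
    rw [hmemJ] at h1 h2
    exact hij (h1.symm.trans h2)
  have hJU : Finset.univ.biUnion J = Finset.univ := by
    ext c
    simp only [Finset.mem_biUnion, Finset.mem_univ, true_and, iff_true]
    exact ⟨c.1, (hmemJ _ _).2 rfl⟩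
  -- bases from invertible matrices
  have hbas : ∀ (G : Fin p → Matrix (Fin n) (Fin n) (ZMod p)) (j : Fin p), (G j).det ≠ 0 →
      Bas (Finset.univ : Finset (Fin n))
        (fun c : Fin p × Fin n => (fun k => G c.1 k c.2 : Fin n → ZMod p)) (J j) := by
    intro G j hG
    refine ⟨hJcard j, ?_, ?_⟩
    · have h1 := Matrix.linearIndependent_cols_of_det_ne_zero hG
      have h2 : Function.Injective (fun c : (J j : Set (Fin p × Fin n)) => (c : Fin p × Fin n).2) := by
        rintro ⟨⟨c1, c2⟩, hc⟩ ⟨⟨d1, d2⟩, hd⟩ h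
        have hc' := (hmemJ _ _).1 (Finset.mem_coe.1 hc)
        have hd' := (hmemJ _ _).1 (Finset.mem_coe.1 hd)
        simp only at hc' hd' h
        subst hc'
        subst hd'
        subst h
        rfl
      have h3 := h1.comp _ h2
      have h4 : (fun c : (J j : Set (Fin p × Fin n)) =>
          (fun k => G (c : Fin p × Fin n).1 k (c : Fin p × Fin n).2 : Fin n → ZMod p)) =
          (G j).col ∘ (fun c : (J j : Set (Fin p × Fin n)) => (c : Fin p × Fin n).2) := by
        funext c k
        have hc' := (hmemJ _ _).1 (Finset.mem_coe.1 c.2)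
        simp only [Function.comp, Matrix.col]
        rw [hc']
        rfl
      unfold LinearIndepOn
      rw [h4]
      exact h3
    · intro c _ w hw
      exact absurd (Finset.mem_univ w) hw
  have hdet : ∀ j, (P * B j).det ≠ 0 := by
    intro j
    rw [Matrix.det_mul]
    exact mul_ne_zero hP (hB j)
  have huv : ∀ (A : Matrix (Fin n) (Fin n) (ZMod p)), UnitColumns A → ∀ c,
      UV (fun k => A k c : Fin n → ZMod p) := by
    intro A hA c
    obtain ⟨i, hi, hk⟩ := hA c
    refine ⟨A i c, hi, i, ?_⟩
    funext k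
    by_cases h : k = i
    · subst h; rw [Pi.single_eq_same]
    · rw [Pi.single_eq_of_ne h]; exact hk k h
  -- the main step
  have hsat : Sat p (Finset.univ : Finset (Fin n)) Finset.univ a := by
    rcases hs with ⟨hs, ht⟩ | ⟨hs, ht⟩
    · -- shadows
      have hG : ∀ j, ∃ G : Matrix (Fin n) (Fin n) (ZMod p), G.det ≠ 0 ∧
          (j ∈ s → ∀ c, GV (fun k => G k c : Fin n → ZMod p)) ∧ (j ∉ s → G = P * B j) ∧
          ∀ k c, (P * B j) k c = 0 ↔ G k c = 0 := by
        intro j
        by_cases hj : j ∈ s
        · obtain ⟨G, h1, h2, h4⟩ := ht j hj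
          refine ⟨G, h1, fun _ c => ?_, fun h => absurd hj h, h4⟩
          rcases h2 c with ⟨i, hi⟩ | ⟨i, j', hij, hi⟩
          · refine ⟨1, one_ne_zero, Or.inl ⟨i, ?_⟩⟩
            funext k
            rw [hi k, Pi.single_apply]
          · refine ⟨1, one_ne_zero, Or.inr ⟨i, j', hij, ?_⟩⟩
            funext k
            rw [hi k, Pi.sub_apply, Pi.single_apply, Pi.single_apply]
            by_cases h5 : k = i
            · rw [if_pos h5, if_pos h5, if_neg (fun h => hij (h5.symm.trans h)), sub_zero]
            · rw [if_neg h5, if_neg h5]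
              by_cases h6 : k = j'
              · rw [if_pos h6, if_pos h6, zero_sub]
              · rw [if_neg h6, if_neg h6, sub_zero]
        · exact ⟨P * B j, hdet j, fun h => absurd h hj, fun _ => rfl, fun k c => Iff.rfl⟩
      choose G hG1 hG2 hG3 hG4 using hG
      have hD : Dat p (Finset.univ : Finset (Fin n)) s Cl1 a
          (fun c => (fun k => G c.1 k c.2 : Fin n → ZMod p)) J := by
        refine ⟨hJdisj, fun j => hbas G j (hG1 j), ?_, ?_, ?_⟩
        · intro j hj c hc
          rw [hmemJ] at hc
          subst hc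
          exact ⟨hG2 c.1 hj c.2, fun k => hG4 c.1 k c.2⟩
        · intro j hj c hc
          rw [hmemJ] at hc
          subst hc
          have := huv _ (hu c.1 hj) c.2
          rw [← hG3 c.1 hj] at this
          exact this
        · intro j c hc
          rw [hmemJ] at hc
          subst hc
          exact fun k => hG4 c.1 k c.2
      have := sat_one h3 hs Finset.univ a _ J hD
      rw [hJU] at this
      exact this
    · have hD : Dat p (Finset.univ : Finset (Fin n)) s Cl2 a a J := by
        refine ⟨hJdisj, fun j => hbas (fun j => P * B j) j (hdet j), ?_, ?_, ?_⟩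
        · intro j hj c hc
          rw [hmemJ] at hc
          subst hc
          exact ⟨rfl, ht c.1 hj c.2⟩
        · intro j hj c hc
          rw [hmemJ] at hc
          subst hc
          exact huv _ (hu c.1 hj) c.2
        · intro j c _ k
          exact Iff.rfl
      have := sat_two h3 hs Finset.univ a a J hD
      rw [hJU] at this
      exact this
  -- avoid the column g
  have hg0 : a g ≠ 0 := by
    have h1 := hbas (fun j => P * B j) g.1 (hdet g.1)
    intro h0
    exact (h1.2.1.ne_zero (i := g) (Finset.mem_coe.2 ((hmemJ _ _).2 rfl))) h0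
  obtain ⟨C, _, hgC, hCc, hCli, hCF⟩ := H75.avoid hsat
    (fun c _ w hw => absurd (Finset.mem_univ w) hw) (Finset.mem_univ g) hg0
  have hCn : C.card = n := by rw [hCc]; simp
  obtain ⟨f, hf1, hf2, hf3, hf4⟩ := Pool.Agent.H63AT3.fin_row B P a (fun c k => rfl) C hCn hCli hCF
  refine ⟨f, hf1, hf3, ?_, ?_⟩
  · rw [hf2]
    intro h
    exact h (Finset.mem_coe.2 hgC)
  · have h5 : ∀ c : {c : Fin p × Fin n // c ∉ Set.range f}, (c : Fin p × Fin n) ∈
        (C : Set (Fin p × Fin n)) := by
      rintro ⟨c, hc⟩
      rw [hf2] at hc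
      simpa using hc
    have h6 : Function.Injective (fun c : {c : Fin p × Fin n // c ∉ Set.range f} =>
        (⟨(c : Fin p × Fin n), h5 c⟩ : (C : Set (Fin p × Fin n)))) := by
      rintro ⟨c, hc⟩ ⟨d, hd⟩ h
      exact Subtype.ext (Subtype.mk.inj h)
    exact LinearIndependent.comp hf4 _ h6

/-- Corollary: every finite multigraph (vertices `V`, edges `E` with ends `x e`, `y e`) with three
edge-disjoint spanning trees (connected spanning subgraphs `T 0`, `T 1`, `T 2`) is `Z_3`-connected:
for every `β : V → Z_3` with sum zero the edges can be oriented (`o e = 1`: from `y e` to `x e`) such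
that the indegree minus the outdegree of every vertex `v` is `β v` modulo 3. -/
theorem z3_connected {V E : Type*} [Fintype V] [DecidableEq V] [Fintype E] (x y : E → V)
    (T : Fin 3 → Set E) (hd : ∀ i j, i ≠ j → Disjoint (T i) (T j))
    (hT : ∀ j, (SimpleGraph.fromEdgeSet ((fun e => s(x e, y e)) '' T j)).Connected)
    (β : V → ZMod 3) (hβ : ∑ v, β v = 0) :
    ∃ o : E → ZMod 3, (∀ e, o e = 1 ∨ o e = -1) ∧
      ∀ v, ∑ e, o e * ((if x e = v then 1 else 0) - (if y e = v then 1 else 0)) = β v := by
  refine Pool.Agent.H63AT3.trees ?_ x y T hd hT β hβ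
  intro n B hB hshape
  rcases Nat.eq_zero_or_pos n with h0 | h0
  · subst h0
    refine ⟨fun c => c.2.elim0, fun c => c.2.elim0, ?_⟩
    rw [Matrix.permanent_isEmpty]
    exact one_ne_zero
  · obtain ⟨f, hf, hp, _⟩ := result 3 Nat.prime_three le_rfl n B hB 1
      (by rw [Matrix.det_one]; exact one_ne_zero) Finset.univ
      (fun j hj => absurd (Finset.mem_univ j) hj)
      (Or.inl ⟨by simp, fun j _ => by
        rw [one_mul]
        exact ⟨B j, hB j, hshape j, fun k c => Iff.rfl⟩⟩) (0, ⟨0, h0⟩)
    exact ⟨f, hf, hp⟩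

end Pool.Agent.Results.MP_4e0dfc_co.GraphicBases
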