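import Pool.Agent.ATB.Stmts3
import Pool.Agent.Helper90_ATB.Dif
import Pool.Agent.Helper85_ATB.LPW
import Pool.Agent.Helper60_ATB.Ctr
import Pool.Agent.Helper60_ATB.Chn
import Pool.Agent.Helper54_ATB.LEA
import Pool.Agent.Helper97_ATB.CLO
import Pool.Agent.Helper10_ATB.J00
import Pool.Agent.Helper22_ATB.IN2
import Pool.Agent.Helper75_ATB.IN1
import Pool.Agent.Helper6_ATB.CIN
import Pool.Agent.Helper52_ATB.GEN
import Pool.Agent.Helper69_ATB.DQS
import Pool.Agent.Helper51_ATB.FIL
import Pool.Agent.Helper65_ATB.INJ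
import Pool.Agent.Helper27_ATB.SGE
import Pool.Agent.Helper27_ATB.SGI
import Pool.Agent.Helper49_ATB.SGX
import Pool.Agent.Helper1_ATB.OMC
import Pool.Agent.Helper95_ATB.VAN2
import Pool.Agent.Helper49_ATB.Lc
import Pool.Agent.Helper61_ATB.LCC
import Pool.Agent.Helper27_ATB.LOX
import Pool.Agent.Helper69_ATB.PCO
import Pool.Agent.Helper9_ATB.GN3
import Pool.Agent.Helper24_ATB.FO3
import Pool.Agent.Helper99_ABCP.ADD

set_option autoImplicit false

/-!
# `2p - 1` bases in characteristic `p` contain an AT-basis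

The main theorem of the squad ATB (proof in words: `Pool/Agent/ATB/Stmts.lean`, `Stmts2.lean`, `Stmts3.lean`;
the vanishing theorem is due to helper21).
-/

namespace Pool.Agent.Results.MP_4e0dfc_co.TwoPMinusOne

open Matrix Pool.Agent.ATB

theorem dif : DIFStmt := H90.dif
theorem dpr : DPRStmt := H90.dpr
theorem lpw : LPWStmt := H85.lpw
theorem ctr : CTRStmt := H60.ctr
theorem lea : LEAStmt := H54.lea
theorem clo : CLOStmt := H97.clo dpr lpw
theorem j00 : J00Stmt := H10.j00 lea clo
theorem in2 : IN2Stmt := H22.in2 lea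
theorem in1 : IN1Stmt := H75.in1 lea ctr lpw
theorem cin : CINStmt := H6.cin lpw
theorem gen : GENStmt := H52.gen cin clo lpw
theorem dqs : DQSStmt := H69.dqs dif clo cin
theorem fil : FILStmt := H51.fil
theorem inj : INJStmt := H65.inj fil gen dqs in1 in2 clo dif
theorem chn : CHNStmt := H60.chn inj
theorem sge : SGEStmt := H27.sge
theorem sgi : SGIStmt := H27.sgi
theorem sgx : SGXStmt := H49.sgx dif lpw lea ctr clo
theorem omc : OMCStmt := H1.omc fil clo j00 dif
theorem van : VAN2Stmt := H95.van2 chn sge sgi sgx omc lpw clo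
theorem lox : LOXStmt := H27.lox H49.lca H49.lcb H61.lcc
theorem gn3 : GN3Stmt := H9.gn3 van lox H49.pix H69P.pco
theorem fo3 : FO3Stmt := H24.fo3 gn3
theorem add : Pool.Agent.ABCP.ADDStmt := Pool.Agent.ABCP.H99.add

/-- For every prime `p`: (1) over any field of characteristic `p`, a finite family of columns such that
every proper subspace `U` misses at least `(2p-1) codim U - p` of them, or at least `(p-1) n + codim U - 1`
of them, contains `(p-1) n` columns forming an AT-basis. (2) Let `m ≥ p` and `(2p-1) g ≤ m g + p` where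
`g = ⌊(n+1)/2⌋` (this holds for `m = 2p-1` and all `n`, for `m = 2p-2` and `n ≤ 2p`, and for `m = p` and
`n ≤ 2`). Among the columns of `m` invertible `n × n` matrices over `Z_p` there are `(p-1) n` distinct ones
which form an AT-basis and an additive basis: every vector of `Z_p^n` is the sum of a subset of them. -/
theorem result (p : ℕ) [Fact p.Prime] :
    (∀ (K : Type) [Field K] [CharP K p] (n : ℕ) (ι : Type) [Fintype ι] (Y : Matrix (Fin n) ι K),
      (∀ U : Submodule K (Fin n → K), U ≠ ⊤ →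
        (2 * p - 1) * n ≤ Nat.card {c : ι // (fun r => Y r c) ∉ U} +
          (2 * p - 1) * Module.finrank K U + p ∨
        p * n ≤ Nat.card {c : ι // (fun r => Y r c) ∉ U} + Module.finrank K U + 1) →
      ∃ f : Fin (p - 1) × Fin n → ι, Function.Injective f ∧
        Matrix.permanent (Matrix.of (fun (r c : Fin (p - 1) × Fin n) => Y r.2 (f c))) ≠ 0) ∧
    (∀ (n m : ℕ), p ≤ m → (2 * p - 1) * ((n + 1) / 2) ≤ m * ((n + 1) / 2) + p →
      ∀ (B : Fin m → Matrix (Fin n) (Fin n) (ZMod p)), (∀ j, IsUnit (B j)) →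
      ∃ f : Fin (p - 1) × Fin n → Fin m × Fin n, Function.Injective f ∧
        Matrix.permanent (Matrix.of (fun (r c : Fin (p - 1) × Fin n) => B (f c).1 r.2 (f c).2)) ≠ 0 ∧
        ∀ y : Fin n → ZMod p, ∃ S : Finset (Fin (p - 1) × Fin n),
          ∀ r : Fin n, ∑ c ∈ S, B (f c).1 r (f c).2 = y r) := by
  refine ⟨?_, ?_⟩
  · intro K _ _ n ι _ Y hY
    exact gn3 p K n ι Y hY
  · intro n m hpm hm B hB
    obtain ⟨f, hf, hp⟩ := fo3 p (ZMod p) n m hpm hm B
      (fun j => ((Matrix.isUnit_iff_isUnit_det _).1 (hB j)).ne_zero)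
    refine ⟨f, hf, hp, fun y => ?_⟩
    obtain ⟨s, hs⟩ := add p n (Matrix.of (fun (r : Fin n) (c : Fin (p - 1) × Fin n) => B (f c).1 r (f c).2)) hp
      (fun _ i => if i = 0 then 0 else 1) (fun c => by simp) y
    refine ⟨Finset.univ.filter (fun c => s c = 1), fun r => ?_⟩
    rw [← hs r, Finset.sum_filter]
    refine Finset.sum_congr rfl (fun c _ => ?_)
    by_cases h : s c = 1
    · rw [if_pos h]
      simp [h]
    · have h0 : s c = 0 := by
        rcases Fin.exists_fin_two.1 ⟨s c, rfl⟩ with h' | h'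
        · exact h'
        · exact absurd h' h
      rw [if_neg h]
      simp [h0]

end Pool.Agent.Results.MP_4e0dfc_co.TwoPMinusOne
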