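import Pool.Agent.Helper95_UNI.Lat

set_option autoImplicit false

/-!
# Totally unimodular families of `k` bases are additive bases modulo `k`

PROOF.  Let `A` be an integral matrix with `k` disjoint bases of columns `a_e`.
(1) `Helper95_UNI/Lev`: for `η > 1/k` the function `log det (∑ c_e a_e a_eᵀ) - η ∑ log c_e` of the
weights `0 < c_e ≤ 1` has a minimum in the interior (Cauchy-Binet and the cheapest of the `k` bases); at
the minimum all leverage scores `c_e (a_e ⬝ G⁻¹ a_e)` are at most `η`.
(2) `Helper95_UNI/Lat`: every coset of `M ℤ^n` has an element `b` of least energy `b ⬝ G⁻¹ b`; comparing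
`b` with `b ± M a_e` shows that `y_e = c_e (a_e ⬝ G⁻¹ b)` satisfies `A y = b` and `|y_e| ≤ M η / 2`.
For `M = 2k` and the coset of `2t - ∑ a_e` the vector `x = (1 + y)/2` lies in `[-δ, 1 + δ]^E`, `δ` as
small as we like, and `A x` is integral and congruent to `t` modulo `k`.
(3) `Helper95_UNI/Tur`: if `A` is totally unimodular, `x` can be rounded to an integral vector `x'` with
`A x' = A x`, at no larger cost for any given linear cost; a suitable cost excludes the values `-1`, `2`.
-/

namespace Pool.Agent.Results.MP_4e0dfc_co.UnimodularBases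

/-- Let `k ≥ 2`, and let `B_1, ..., B_k` be invertible `n × n` matrices over `Z/k` such that, for some
invertible `P`, the matrix `P [B_1 ... B_k]` is the reduction modulo `k` of a totally unimodular integer
matrix `A`. Then every vector of `(Z/k)^n` is the sum of a subset of the `k n` columns of
`[B_1 ... B_k]`. -/
theorem result (k : ℕ) (hk : 2 ≤ k) (n : ℕ)
    (B : Fin k → Matrix (Fin n) (Fin n) (ZMod k)) (hB : ∀ j, IsUnit (B j))
    (P : Matrix (Fin n) (Fin n) (ZMod k)) (hP : IsUnit P)
    (A : Matrix (Fin n) (Fin k × Fin n) ℤ) (hA : A.IsTotallyUnimodular)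
    (hPA : ∀ j r i, (P * B j) r i = ((A r (j, i) : ℤ) : ZMod k)) (y : Fin n → ZMod k) :
    ∃ S : Finset (Fin k × Fin n), ∀ r, ∑ c ∈ S, B c.1 r c.2 = y r := by
  classical
  have : Fact (1 < k) := ⟨by omega⟩
  have : NeZero k := ⟨by omega⟩
  -- the determinants are not zero
  have hdet : ∀ j, (A.submatrix id (fun i : Fin n => (j, i))).det ≠ 0 := by
    intro j h0
    have h1 : (P * B j).det = (((A.submatrix id (fun i : Fin n => (j, i))).det : ℤ) : ZMod k) := by
      have h2 : P * B j =
          (A.submatrix id (fun i : Fin n => (j, i))).map (Int.cast : ℤ → ZMod k) := by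
        ext r i
        exact hPA j r i
      rw [h2, Int.cast_det]
    have h3 : IsUnit (P * B j).det := (Matrix.isUnit_iff_isUnit_det _).1 (hP.mul (hB j))
    rw [h1, h0, Int.cast_zero] at h3
    exact not_isUnit_zero h3
  -- the target
  obtain ⟨t, ht⟩ : ∃ t : Fin n → ℤ, ∀ r, ((t r : ℤ) : ZMod k) = (P.mulVec y) r :=
    ⟨fun r => ((P.mulVec y) r).valMinAbs, fun r => ZMod.coe_valMinAbs _⟩
  obtain ⟨S, hS⟩ := Pool.Agent.UNI.subset_sum A hA k (by omega)
    (fun j i => (j, i)) (fun a b h => h) hdet t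
  refine ⟨S, ?_⟩
  have h1 : P.mulVec (fun r => ∑ c ∈ S, B c.1 r c.2) = P.mulVec y := by
    funext r
    have h2 : (((∑ c ∈ S, A r c - t r : ℤ)) : ZMod k) = 0 :=
      (ZMod.intCast_zmod_eq_zero_iff_dvd _ k).2 (hS r)
    rw [← ht r, ← sub_eq_zero, ← h2]
    push_cast
    rw [Matrix.mulVec, dotProduct]
    congr 1
    rw [show ∑ i, P r i * ∑ c ∈ S, B c.1 i c.2 = ∑ i, ∑ c ∈ S, P r i * B c.1 i c.2 from
      Finset.sum_congr rfl fun i _ => Finset.mul_sum _ _ _, Finset.sum_comm]
    refine Finset.sum_congr rfl fun c _ => ?_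
    rw [← hPA c.1 r c.2, Matrix.mul_apply]
  have h2 : (fun r => ∑ c ∈ S, B c.1 r c.2) = y := by
    obtain ⟨Q, hQ⟩ := hP.exists_left_inv
    have h3 := congrArg Q.mulVec h1
    rw [Matrix.mulVec_mulVec, Matrix.mulVec_mulVec, hQ, Matrix.one_mulVec, Matrix.one_mulVec] at h3
    exact h3
  exact fun r => congrFun h2 r

end Pool.Agent.Results.MP_4e0dfc_co.UnimodularBases
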